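import Pool.Agent.H532R3.ME.Test

set_option autoImplicit false

open MeasureTheory Filter Topology
open scoped ContDiff Laplacian InnerProductSpace RealInnerProductSpace FourierTransform Convolution

namespace Pool.Agent.H532R3.ME

variable {V : Type*} [NormedAddCommGroup V] [InnerProductSpace ℝ V] [FiniteDimensional ℝ V]
  [MeasurableSpace V] [BorelSpace V]

/-- the Fourier transform of a real function -/
noncomputable def hat (f : V → ℝ) (k : V) : ℂ :=
  𝓕 (fun x => (f x : ℂ)) ((2 * Real.pi)⁻¹ • k)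

lemma hat_eq (f : V → ℝ) (k : V) :
    hat f k = ∫ x, Complex.exp ((-(⟪k, x⟫ : ℝ) : ℂ) * Complex.I) * (f x : ℂ) := by
  unfold hat
  rw [Real.fourier_eq']
  congr 1
  ext x
  have h1 : (-2 * Real.pi * ⟪x, (2 * Real.pi)⁻¹ • k⟫ : ℝ) = -⟪k, x⟫ := by
    rw [inner_smul_right, real_inner_comm]
    have := Real.pi_pos
    field_simp
  rw [h1]
  simp

lemma hat_integrand (f : V → ℝ) (k x : V) :
    Complex.exp ((-(⟪k, x⟫ : ℝ) : ℂ) * Complex.I) * (f x : ℂ) =
      ((f x * Real.cos ⟪k, x⟫ : ℝ) : ℂ) - ((f x * Real.sin ⟪k, x⟫ : ℝ) : ℂ) * Complex.I := by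
  rw [Complex.exp_mul_I, Complex.cos_neg, Complex.sin_neg]
  push_cast
  ring

lemma integrable_mul_cos {f : V → ℝ} (hf : Integrable f) (k : V) :
    Integrable (fun x => f x * Real.cos ⟪k, x⟫) := by
  apply hf.mul_bdd (c := 1)
  · exact (Real.continuous_cos.comp (by fun_prop)).aestronglyMeasurable
  · filter_upwards with x
    rw [Real.norm_eq_abs]
    exact Real.abs_cos_le_one _

lemma integrable_mul_sin {f : V → ℝ} (hf : Integrable f) (k : V) :
    Integrable (fun x => f x * Real.sin ⟪k, x⟫) := by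
  apply hf.mul_bdd (c := 1)
  · exact (Real.continuous_sin.comp (by fun_prop)).aestronglyMeasurable
  · filter_upwards with x
    rw [Real.norm_eq_abs]
    exact Real.abs_sin_le_one _

lemma hat_eq' {f : V → ℝ} (hf : Integrable f) (k : V) :
    hat f k = ((∫ x, f x * Real.cos ⟪k, x⟫ : ℝ) : ℂ) - ((∫ x, f x * Real.sin ⟪k, x⟫ : ℝ) : ℂ) * Complex.I := by
  rw [hat_eq]
  simp_rw [hat_integrand]
  rw [integral_sub (integrable_mul_cos hf k).ofReal ((integrable_mul_sin hf k).ofReal.mul_const _),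
    integral_mul_const, integral_complex_ofReal, integral_complex_ofReal]

lemma hat_re {f : V → ℝ} (hf : Integrable f) (k : V) :
    (hat f k).re = ∫ x, f x * Real.cos ⟪k, x⟫ := by
  rw [hat_eq' hf]; simp

lemma hat_im {f : V → ℝ} (hf : Integrable f) (k : V) :
    (hat f k).im = - ∫ x, f x * Real.sin ⟪k, x⟫ := by
  rw [hat_eq' hf]; simp

lemma hat_zero {f : V → ℝ} (hf : Integrable f) : hat f 0 = ((∫ x, f x : ℝ) : ℂ) := by
  rw [hat_eq' hf]; simp

lemma hat_norm_le {f : V → ℝ} (h0 : ∀ᵐ x, 0 ≤ f x) (k : V) :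
    ‖hat f k‖ ≤ ∫ x, f x := by
  rw [hat_eq]
  refine (norm_integral_le_integral_norm _).trans (le_of_eq ?_)
  apply integral_congr_ae
  filter_upwards [h0] with x hx
  rw [norm_mul]
  have : ‖Complex.exp ((-(⟪k, x⟫ : ℝ) : ℂ) * Complex.I)‖ = 1 := by
    rw [← Complex.ofReal_neg, Complex.norm_exp_ofReal_mul_I]
  rw [this, one_mul, Complex.norm_real, Real.norm_eq_abs, abs_of_nonneg hx]

lemma hat_continuous {f : V → ℝ} (hf : Integrable f) : Continuous (hat f) := by
  have h : Continuous (𝓕 (fun x => (f x : ℂ))) := by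
    have := VectorFourier.fourierIntegral_continuous (μ := (volume : Measure V)) (L := innerₗ V)
      Real.continuous_fourierChar (by
        change Continuous (fun p : V × V => ⟪p.1, p.2⟫)
        fun_prop) (f := fun x => (f x : ℂ)) hf.ofReal
    exact this
  exact h.comp (by fun_prop)

/-- the convolution -/
noncomputable def conv (f g : V → ℝ) (x : V) : ℝ := ∫ y, f (x - y) * g y

lemma conv_integrable {f g : V → ℝ} (hf : Integrable f) (hg : Integrable g) :
    Integrable (conv f g) := by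
  have h := hf.integrable_convolution (ContinuousLinearMap.mul ℝ ℝ) hg
  refine h.congr (Eventually.of_forall fun x => ?_)
  rw [convolution_mul_swap]
  rfl

lemma hat_conv {f g : V → ℝ} (hf : Integrable f) (hg : Integrable g) (k : V) :
    hat (conv f g) k = hat f k * hat g k := by
  unfold hat
  have h := Real.fourier_mul_convolution_eq (R := ℂ) (f₁ := fun x => (f x : ℂ))
    (f₂ := fun x => (g x : ℂ)) hf.ofReal hg.ofReal ((2 * Real.pi)⁻¹ • k)
  rw [← h]
  have h2 : (fun x => (conv f g x : ℂ)) =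
      ((fun x => (f x : ℂ)) ⋆[ContinuousLinearMap.mul ℂ ℂ] (fun x => (g x : ℂ))) := by
    funext x
    rw [convolution_eq_swap]
    unfold conv
    rw [← integral_complex_ofReal]
    push_cast
    rfl
  rw [h2]

lemma hat_add {f g : V → ℝ} (hf : Integrable f) (hg : Integrable g) (k : V) :
    hat (fun x => f x + g x) k = hat f k + hat g k := by
  rw [hat_eq, hat_eq, hat_eq, ← integral_add]
  · congr 1; ext x; push_cast; ring
  · simp_rw [hat_integrand]
    exact (integrable_mul_cos hf k).ofReal.sub ((integrable_mul_sin hf k).ofReal.mul_const _)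
  · simp_rw [hat_integrand]
    exact (integrable_mul_cos hg k).ofReal.sub ((integrable_mul_sin hg k).ofReal.mul_const _)

lemma hat_smul (f : V → ℝ) (c : ℝ) (k : V) :
    hat (fun x => c * f x) k = c * hat f k := by
  rw [hat_eq, hat_eq, ← integral_const_mul]
  congr 1; ext x; push_cast; ring

lemma hat_neg_im {f : V → ℝ} (hf : Integrable f) (k : V) : (hat f (-k)).im = - (hat f k).im := by
  rw [hat_im hf, hat_im hf, ← integral_neg]
  simp

/-- The equation on the Fourier side. -/
lemma hat_of_weak (c : ℝ) (u F : V → ℝ) (hu : Integrable u) (hF : Integrable F)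
    (h : ∀ φ : V → ℝ, ContDiff ℝ ∞ φ → HasCompactSupport φ →
      c * ∫ x, u x * (Δ φ) x = ∫ x, F x * φ x) (k : V) :
    ((-c * ‖k‖ ^ 2 : ℝ) : ℂ) * hat u k = hat F k := by
  have hbd : ∀ g : ℝ → ℝ, ContDiff ℝ ∞ g → (∀ j ≤ 2, ∀ t, |iteratedDeriv j g t| ≤ 1) →
      ∃ C : ℝ, ∀ j ≤ 2, ∀ x : V, ‖iteratedFDeriv ℝ j (fun y : V => g ⟪k, y⟫) x‖ ≤ C := by
    intro g hg hb
    refine ⟨1 + ‖innerSL ℝ k‖ + ‖innerSL ℝ k‖ ^ 2, fun j hj x => ?_⟩
    have h1 : (fun y : V => g ⟪k, y⟫) = g ∘ (innerSL ℝ k) := by ext; simp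
    rw [h1]
    refine (iteratedFDeriv_comp_clm g hg (innerSL ℝ k) j x).trans ?_
    refine (mul_le_mul_of_nonneg_right (hb j hj _) (by positivity)).trans ?_
    have hn := norm_nonneg (innerSL ℝ k)
    interval_cases j
    · simp only [pow_zero, one_mul]; nlinarith
    · simp only [pow_one, one_mul]; nlinarith
    · nlinarith
  have hh : ∀ φ : V → ℝ, ContDiff ℝ ∞ φ → HasCompactSupport φ →
      ∫ x, (c * u x) * (Δ φ) x = ∫ x, F x * φ x := by
    intro φ h1 h2
    rw [← h φ h1 h2, ← integral_const_mul]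
    congr 1; ext x; ring
  have key : ∀ g : ℝ → ℝ, ContDiff ℝ ∞ g → (∀ j ≤ 2, ∀ t, |iteratedDeriv j g t| ≤ 1) →
      (∀ t, iteratedDeriv 2 g t = - g t) →
      -c * ‖k‖ ^ 2 * ∫ x, u x * g ⟪k, x⟫ = ∫ x, F x * g ⟪k, x⟫ := by
    intro g hg hb h2
    obtain ⟨C, hC⟩ := hbd g hg hb
    have h3 := extend_test (fun x => c * u x) F (hu.const_mul c) hF hh (fun y => g ⟪k, y⟫)
      (hg.comp (innerSL ℝ k).contDiff) C hC
    rw [← h3, ← integral_const_mul]
    congr 1; ext x
    rw [laplacian_comp_clm g hg k x, h2]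
    ring
  have d1 : ∀ t, iteratedDeriv 1 Real.cos t = - Real.sin t := by
    intro t; rw [iteratedDeriv_one]; simp
  have d2 : ∀ t, iteratedDeriv 2 Real.cos t = - Real.cos t := by
    intro t
    rw [iteratedDeriv_succ]
    have : iteratedDeriv 1 Real.cos = fun t => - Real.sin t := by ext t; exact d1 t
    rw [this]
    simp
  have e1 : ∀ t, iteratedDeriv 1 Real.sin t = Real.cos t := by
    intro t; rw [iteratedDeriv_one]; simp
  have e2 : ∀ t, iteratedDeriv 2 Real.sin t = - Real.sin t := by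
    intro t
    rw [iteratedDeriv_succ]
    have : iteratedDeriv 1 Real.sin = fun t => Real.cos t := by ext t; exact e1 t
    rw [this]
    simp
  have k1 := key Real.cos Real.contDiff_cos (by
    intro j hj t
    interval_cases j
    · simpa using Real.abs_cos_le_one t
    · rw [d1, abs_neg]; exact Real.abs_sin_le_one t
    · rw [d2, abs_neg]; exact Real.abs_cos_le_one t) d2
  have k2 := key Real.sin Real.contDiff_sin (by
    intro j hj t
    interval_cases j
    · simpa using Real.abs_sin_le_one t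
    · rw [e1]; exact Real.abs_cos_le_one t
    · rw [e2, abs_neg]; exact Real.abs_sin_le_one t) e2
  rw [hat_eq' hu, hat_eq' hF, ← k1, ← k2]
  push_cast
  ring

end Pool.Agent.H532R3.ME
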