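import Pool.Agent.H532R3.ME.FT

set_option autoImplicit false

open MeasureTheory Filter Topology
open scoped ContDiff Laplacian InnerProductSpace RealInnerProductSpace

namespace Pool.Agent.H532R3.ME

/-- Euclidean space of dimension `d` -/
abbrev E (d : ℕ) := EuclideanSpace ℝ (Fin d)

/-- Admissible potentials: `v ≥ 0`, `v` is not almost everywhere zero, `v ∈ L_1`, and `v ∈ L_p`
for some `p > max (d / 2) 1`. -/
structure Admissible {d : ℕ} (v : E d → ℝ) : Prop where
  nonneg : ∀ x, 0 ≤ v x
  ne_zero : ¬ v =ᵐ[volume] 0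
  integrable : Integrable v
  memLp : ∃ p : ℝ, max ((d : ℝ) / 2) 1 < p ∧ MemLp v (ENNReal.ofReal p)

/-- `u` is an integrable solution of the Medium Equation with values in `[0, 1]` (almost
everywhere), in the sense of distributions:
`-(1/m) Δ u = (1-u) v - 2 ρ u * S + ρ ^ 2 u * u * S` with `S = (1-u) v`. -/
structure IsMediumSolution {d : ℕ} (m ρ : ℝ) (v u : E d → ℝ) : Prop where
  integrable : Integrable u
  range : ∀ᵐ x, 0 ≤ u x ∧ u x ≤ 1
  eqn : ∀ φ : E d → ℝ, ContDiff ℝ ∞ φ → HasCompactSupport φ →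
    -(1 / m) * ∫ x, u x * (Δ φ) x =
      ∫ x, ((1 - u x) * v x - 2 * ρ * conv u (fun y => (1 - u y) * v y) x
        + ρ ^ 2 * conv u (conv u (fun y => (1 - u y) * v y)) x) * φ x

variable {d : ℕ} {m ρ : ℝ} {v u : E d → ℝ}

lemma uv_integrable (hv : Integrable v) (hu : Integrable u) (hr : ∀ᵐ x, 0 ≤ u x ∧ u x ≤ 1) :
    Integrable (fun x => u x * v x) := by
  have h := hv.bdd_mul (c := 1) hu.aestronglyMeasurable (by
    filter_upwards [hr] with x hx
    rw [Real.norm_eq_abs, abs_of_nonneg hx.1]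
    exact hx.2)
  exact h

lemma S_integrable (hv : Integrable v) (hu : Integrable u) (hr : ∀ᵐ x, 0 ≤ u x ∧ u x ≤ 1) :
    Integrable (fun x => (1 - u x) * v x) := by
  have h := hv.sub (uv_integrable hv hu hr)
  refine h.congr (Eventually.of_forall fun x => ?_)
  simp only [Pi.sub_apply]
  ring

/-- the Medium Equation on the Fourier side -/
lemma medium_fourier (hv : Integrable v) (h : IsMediumSolution m ρ v u) (k : E d) :
    ((1 / m * ‖k‖ ^ 2 : ℝ) : ℂ) * hat u k =
      hat (fun x => (1 - u x) * v x) k * (1 - ρ * hat u k) ^ 2 := by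
  set S : E d → ℝ := fun x => (1 - u x) * v x with hS
  have hSi : Integrable S := S_integrable hv h.integrable h.range
  have h1 : Integrable (conv u S) := conv_integrable h.integrable hSi
  have h2 : Integrable (conv u (conv u S)) := conv_integrable h.integrable h1
  have hF : Integrable (fun x => S x - 2 * ρ * conv u S x + ρ ^ 2 * conv u (conv u S) x) :=
    (hSi.sub (h1.const_mul _)).add (h2.const_mul _)
  have key := hat_of_weak (-(1 / m)) u _ h.integrable hF h.eqn k
  have e1 : hat (fun x => S x - 2 * ρ * conv u S x + ρ ^ 2 * conv u (conv u S) x) k =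
      hat S k * (1 - ρ * hat u k) ^ 2 := by
    have e2 : (fun x => S x - 2 * ρ * conv u S x + ρ ^ 2 * conv u (conv u S) x) =
        fun x => (S x + (-(2 * ρ)) * conv u S x) + ρ ^ 2 * conv u (conv u S) x := by
      funext x; ring
    have i1 : Integrable (fun x => (-(2 * ρ)) * conv u S x) := h1.const_mul _
    have i2 : Integrable (fun x => S x + (-(2 * ρ)) * conv u S x) := hSi.add i1
    have i3 : Integrable (fun x => ρ ^ 2 * conv u (conv u S) x) := h2.const_mul _
    rw [e2, hat_add i2 i3, hat_add hSi i1,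
      hat_smul, hat_smul, hat_conv h.integrable h1, hat_conv h.integrable hSi]
    push_cast
    ring
  rw [e1] at key
  rw [← key]
  push_cast
  ring

/-- every solution has mass `1 / ρ` -/
lemma medium_mass (hd : 1 ≤ d) (hm : 0 < m) (hρ : 0 < ρ) (hv : Admissible v)
    (h : IsMediumSolution m ρ v u) : ∫ x, u x = 1 / ρ := by
  set S : E d → ℝ := fun x => (1 - u x) * v x with hS
  have hSi : Integrable S := S_integrable hv.integrable h.integrable h.range
  have hS0 : ∀ᵐ x, 0 ≤ S x := by
    filter_upwards [h.range] with x hx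
    exact mul_nonneg (by linarith [hx.2]) (hv.nonneg x)
  have h0 := medium_fourier hv.integrable h 0
  rw [norm_zero, hat_zero h.integrable, hat_zero hSi] at h0
  have h1 : (∫ x, S x) * (1 - ρ * ∫ x, u x) ^ 2 = 0 := by
    have : (((∫ x, S x) * (1 - ρ * ∫ x, u x) ^ 2 : ℝ) : ℂ) = 0 := by
      push_cast
      rw [← h0]
      simp
    exact_mod_cast this
  rcases mul_eq_zero.mp h1 with h2 | h2
  · exfalso
    have hS1 : S =ᵐ[volume] 0 := (integral_eq_zero_iff_of_nonneg_ae hS0 hSi).mp h2
    have hS2 : ∀ k, hat S k = 0 := by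
      intro k
      rw [hat_eq' hSi]
      have a1 : ∫ x, S x * Real.cos ⟪k, x⟫ = 0 := by
        rw [integral_congr_ae (g := fun _ => (0 : ℝ))]
        · simp
        · filter_upwards [hS1] with x hx
          simp [hx]
      have a2 : ∫ x, S x * Real.sin ⟪k, x⟫ = 0 := by
        rw [integral_congr_ae (g := fun _ => (0 : ℝ))]
        · simp
        · filter_upwards [hS1] with x hx
          simp [hx]
      rw [a1, a2]; simp
    have hu0 : ∀ k : E d, k ≠ 0 → hat u k = 0 := by
      intro k hk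
      have h3 := medium_fourier hv.integrable h k
      rw [hS2 k, zero_mul, mul_eq_zero] at h3
      rcases h3 with h3 | h3
      · exfalso
        have h4 : (1 / m * ‖k‖ ^ 2 : ℝ) = 0 := by exact_mod_cast h3
        have h5 : 0 < 1 / m * ‖k‖ ^ 2 := by
          have := norm_pos_iff.mpr hk
          positivity
        linarith
      · exact h3
    have : Nonempty (Fin d) := ⟨⟨0, hd⟩⟩
    have hu00 : hat u 0 = 0 := by
      have hc := (hat_continuous h.integrable).tendsto (0 : E d)
      have hc' : Tendsto (hat u) (𝓝[≠] (0 : E d)) (𝓝 (hat u 0)) := hc.mono_left nhdsWithin_le_nhds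
      have hz : Tendsto (hat u) (𝓝[≠] (0 : E d)) (𝓝 0) := by
        apply tendsto_const_nhds.congr'
        filter_upwards [self_mem_nhdsWithin] with k hk
        exact (hu0 k hk).symm
      exact tendsto_nhds_unique hc' hz
    rw [hat_zero h.integrable] at hu00
    have hu1 : ∫ x, u x = 0 := by exact_mod_cast hu00
    have hu2 : u =ᵐ[volume] 0 := (integral_eq_zero_iff_of_nonneg_ae (by
      filter_upwards [h.range] with x hx using hx.1) h.integrable).mp hu1
    apply hv.ne_zero
    filter_upwards [hS1, hu2] with x hx hx2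
    have : S x = v x := by simp [hS, hx2]
    rw [← this, hx]
  · have h3 : 1 - ρ * ∫ x, u x = 0 := by
      exact pow_eq_zero_iff (two_ne_zero) |>.mp h2
    field_simp
    linarith

/-- if the mass of `u` is small then so is the integral of `u v` -/
lemma small_uv (hv : Integrable v) (hv0 : ∀ x, 0 ≤ v x) {ε : ℝ} (hε : 0 < ε) : ∃ η : ℝ, 0 < η ∧
    ∀ u : E d → ℝ, Integrable u → (∀ᵐ x, 0 ≤ u x ∧ u x ≤ 1) → ∫ x, u x ≤ η →
      ∫ x, u x * v x ≤ ε := by
  have hmin : ∀ n : ℕ, Integrable (fun x => min (v x) n) := by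
    intro n
    refine hv.mono (hv.aestronglyMeasurable.inf aestronglyMeasurable_const) ?_
    filter_upwards with x
    rw [Real.norm_eq_abs, Real.norm_eq_abs, abs_of_nonneg (hv0 x), abs_of_nonneg (le_min (hv0 x) (by positivity))]
    exact min_le_left _ _
  have hlim : Tendsto (fun n : ℕ => ∫ x, (v x - min (v x) n)) atTop (𝓝 (∫ _x : E d, (0 : ℝ))) := by
    apply tendsto_integral_of_dominated_convergence v
    · intro n
      exact (hv.sub (hmin n)).aestronglyMeasurable
    · exact hv
    · intro n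
      filter_upwards with x
      have h1 : min (v x) n ≤ v x := min_le_left _ _
      have h2 : 0 ≤ min (v x) n := le_min (hv0 x) (by positivity)
      rw [Real.norm_eq_abs, abs_of_nonneg (by linarith)]
      linarith
    · filter_upwards with x
      apply tendsto_const_nhds.congr'
      filter_upwards [eventually_ge_atTop ⌈v x⌉₊] with n hn
      have : v x ≤ n := (Nat.le_ceil _).trans (by exact_mod_cast hn)
      rw [min_eq_left this, sub_self]
  rw [integral_zero] at hlim
  obtain ⟨n, hn⟩ := (hlim.eventually (gt_mem_nhds (show (0 : ℝ) < ε / 2 by positivity))).exists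
  refine ⟨ε / (2 * (n + 1)), by positivity, ?_⟩
  intro u hu hr hmass
  have h1 : ∫ x, u x * v x ≤ ∫ x, ((n : ℝ) * u x + (v x - min (v x) n)) := by
    apply integral_mono_ae (uv_integrable hv hu hr) ((hu.const_mul _).add (hv.sub (hmin n)))
    filter_upwards [hr] with x hx
    have h2 : min (v x) n ≤ n := min_le_right _ _
    have h3 : 0 ≤ v x - min (v x) n := by linarith [min_le_left (v x) (n : ℝ)]
    have h4 : 0 ≤ min (v x) n := le_min (hv0 x) (by positivity)
    change u x * v x ≤ (n : ℝ) * u x + (v x - min (v x) n)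
    nlinarith [mul_le_mul_of_nonneg_left h2 hx.1, mul_le_mul_of_nonneg_right hx.2 h3]
  have i1 : Integrable (fun x => (n : ℝ) * u x) := hu.const_mul _
  have i2 : Integrable (fun x => v x - min (v x) n) := hv.sub (hmin n)
  rw [integral_add i1 i2, integral_const_mul] at h1
  have h5 : (n : ℝ) * ∫ x, u x ≤ ε / 2 := by
    calc (n : ℝ) * ∫ x, u x ≤ n * (ε / (2 * (n + 1))) := by gcongr
      _ = ε / 2 * (n / (n + 1)) := by field_simp
      _ ≤ ε / 2 * 1 := by
        apply mul_le_mul_of_nonneg_left _ (by positivity)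
        rw [div_le_one (by positivity)]
        linarith
      _ = ε / 2 := mul_one _
  have h6 : ∫ x, (v x - min (v x) n) ≤ ε / 2 := hn.le
  linarith

/-- No solution for large `ρ` if the real part of the Fourier transform of the potential is
negative along a path from a point to its opposite. -/
theorem no_medium_of_path (hd : 1 ≤ d) (hv : Admissible v) (γ : ℝ → E d) (hγ : Continuous γ)
    (hγ1 : γ 1 = - γ 0) (hneg : ∀ t ∈ Set.Icc (0 : ℝ) 1, ∫ x, v x * Real.cos ⟪γ t, x⟫ < 0)
    (hm : 0 < m) : ∃ ρ₀ : ℝ, 0 < ρ₀ ∧ ∀ ρ, ρ₀ ≤ ρ → ¬ ∃ u, IsMediumSolution m ρ v u := by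
  -- compactness
  have hcont : Continuous (fun t => ∫ x, v x * Real.cos ⟪γ t, x⟫) := by
    have h1 : (fun t => ∫ x, v x * Real.cos ⟪γ t, x⟫) = fun t => (hat v (γ t)).re := by
      funext t; rw [hat_re hv.integrable]
    rw [h1]
    exact Complex.continuous_re.comp ((hat_continuous hv.integrable).comp hγ)
  obtain ⟨t₁, ht₁, hmax⟩ := isCompact_Icc.exists_isMaxOn (Set.nonempty_Icc.mpr (zero_le_one' ℝ))
    hcont.continuousOn
  obtain ⟨t₂, ht₂, hmax2⟩ := isCompact_Icc.exists_isMaxOn (Set.nonempty_Icc.mpr (zero_le_one' ℝ))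
    ((continuous_norm.comp hγ).continuousOn)
  set δ : ℝ := - ∫ x, v x * Real.cos ⟪γ t₁, x⟫ with hδdef
  have hδ : 0 < δ := by rw [hδdef]; linarith [hneg t₁ ht₁]
  set K : ℝ := ‖γ t₂‖ with hK
  have hK0 : 0 ≤ K := norm_nonneg _
  obtain ⟨η, hη, hsmall⟩ := small_uv hv.integrable hv.nonneg (show 0 < δ / 2 by positivity)
  refine ⟨max (1 / η) ((2 * K ^ 2 + 1) / (m * δ)), lt_max_of_lt_left (by positivity), ?_⟩
  rintro ρ hρ ⟨u, hu⟩
  have hρ1 : 1 / η ≤ ρ := (le_max_left _ _).trans hρ
  have hρ2 : (2 * K ^ 2 + 1) / (m * δ) ≤ ρ := (le_max_right _ _).trans hρ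
  have hρ0 : 0 < ρ := lt_of_lt_of_le (by positivity) hρ1
  have hmass := medium_mass hd hm hρ0 hv hu
  have huv : ∫ x, u x * v x ≤ δ / 2 := by
    apply hsmall u hu.integrable hu.range
    rw [hmass, div_le_iff₀ hρ0]
    rw [div_le_iff₀ hη] at hρ1
    linarith
  -- a point where the Fourier transform of u is real
  have him : Continuous (fun t => (hat u (γ t)).im) :=
    Complex.continuous_im.comp ((hat_continuous hu.integrable).comp hγ)
  obtain ⟨t, ht, htz⟩ : ∃ t ∈ Set.Icc (0 : ℝ) 1, (hat u (γ t)).im = 0 := by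
    have h1 : (hat u (γ 1)).im = - (hat u (γ 0)).im := by rw [hγ1, hat_neg_im hu.integrable]
    have h2 := intermediate_value_uIcc (a := (0 : ℝ)) (b := 1) him.continuousOn
    have h3 : (0 : ℝ) ∈ Set.uIcc ((hat u (γ 0)).im) ((hat u (γ 1)).im) := by
      rw [h1]
      rcases le_total 0 ((hat u (γ 0)).im) with h | h
      · rw [Set.mem_uIcc]; right; constructor <;> linarith
      · rw [Set.mem_uIcc]; left; constructor <;> linarith
    obtain ⟨t, ht, ht2⟩ := h2 h3
    rw [Set.uIcc_of_le zero_le_one] at ht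
    exact ⟨t, ht, ht2⟩
  set k := γ t with hk
  set r := (hat u k).re with hr
  have hz : hat u k = (r : ℂ) := by
    apply Complex.ext
    · simp [hr]
    · simpa using htz
  have hrb : |r| ≤ 1 / ρ := by
    have h1 := hat_norm_le (by filter_upwards [hu.range] with x hx using hx.1) k (f := u)
    rw [hz, Complex.norm_real, hmass] at h1
    exact h1
  set S : E d → ℝ := fun x => (1 - u x) * v x with hS
  have hSi : Integrable S := S_integrable hv.integrable hu.integrable hu.range
  have hSre : (hat S k).re ≤ - (δ / 2) := by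
    rw [hat_re hSi]
    have h1 : ∫ x, S x * Real.cos ⟪k, x⟫ ≤ ∫ x, (v x * Real.cos ⟪k, x⟫ + u x * v x) := by
      apply integral_mono_ae (integrable_mul_cos hSi k)
        ((integrable_mul_cos hv.integrable k).add (uv_integrable hv.integrable hu.integrable hu.range))
      filter_upwards [hu.range] with x hx
      have h2 := Real.neg_one_le_cos ⟪k, x⟫
      have h3 : 0 ≤ u x * v x := mul_nonneg hx.1 (hv.nonneg x)
      change (1 - u x) * v x * Real.cos ⟪k, x⟫ ≤ v x * Real.cos ⟪k, x⟫ + u x * v x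
      nlinarith
    rw [integral_add (integrable_mul_cos hv.integrable k)
      (uv_integrable hv.integrable hu.integrable hu.range)] at h1
    have h2 : ∫ x, v x * Real.cos ⟪k, x⟫ ≤ -δ := by
      have := hmax ht
      rw [hδdef, neg_neg]
      exact this
    linarith
  have hkK : ‖k‖ ≤ K := hmax2 ht
  have hk0 : 0 < ‖k‖ := by
    rw [norm_pos_iff]
    intro h0
    have h1 := hneg t ht
    rw [← hk, h0] at h1
    simp only [inner_zero_left, Real.cos_zero, mul_one] at h1
    have h2 : 0 ≤ ∫ x, v x := integral_nonneg hv.nonneg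
    linarith
  have heq := medium_fourier hv.integrable hu k
  rw [hz] at heq
  have heq2 : 1 / m * ‖k‖ ^ 2 * r = (hat S k).re * (1 - ρ * r) ^ 2 := by
    have h1 := congrArg Complex.re heq
    have h2 : (1 - (ρ : ℂ) * (r : ℂ)) ^ 2 = (((1 - ρ * r) ^ 2 : ℝ) : ℂ) := by push_cast; ring
    rw [h2, ← Complex.ofReal_mul, Complex.ofReal_re, Complex.re_mul_ofReal] at h1
    exact h1
  have hq : |ρ * r| ≤ 1 := by
    rw [abs_mul, abs_of_pos hρ0]
    calc ρ * |r| ≤ ρ * (1 / ρ) := by gcongr
      _ = 1 := by field_simp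
  have hq1 := (abs_le.mp hq).1
  have hq2 := (abs_le.mp hq).2
  have hc0 : 0 < 1 / m * ‖k‖ ^ 2 := by positivity
  rcases le_or_gt r 0 with hr0 | hr0
  · have h1 : 1 ≤ (1 - ρ * r) ^ 2 := by nlinarith [mul_nonneg hρ0.le (neg_nonneg.mpr hr0)]
    have h2 : (hat S k).re * (1 - ρ * r) ^ 2 ≤ - (δ / 2) := by nlinarith
    rw [← heq2] at h2
    have h3 : ρ * (1 / m * ‖k‖ ^ 2 * r) ≤ ρ * (-(δ / 2)) := by gcongr
    have h4 : -(1 / m * ‖k‖ ^ 2) ≤ ρ * (1 / m * ‖k‖ ^ 2 * r) := by nlinarith
    have h5 : ρ * (δ / 2) ≤ 1 / m * K ^ 2 := by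
      have : 1 / m * ‖k‖ ^ 2 ≤ 1 / m * K ^ 2 := by gcongr
      linarith
    have h6 : ρ * (m * δ) ≤ 2 * K ^ 2 := by
      have := mul_le_mul_of_nonneg_left h5 (show 0 ≤ 2 * m by positivity)
      calc ρ * (m * δ) = 2 * m * (ρ * (δ / 2)) := by ring
        _ ≤ 2 * m * (1 / m * K ^ 2) := this
        _ = 2 * K ^ 2 := by field_simp
    rw [div_le_iff₀ (by positivity)] at hρ2
    linarith
  · have h1 : 0 < 1 / m * ‖k‖ ^ 2 * r := by positivity
    have h2 : (hat S k).re * (1 - ρ * r) ^ 2 ≤ 0 :=
      mul_nonpos_of_nonpos_of_nonneg (by linarith) (sq_nonneg _)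
    linarith

end Pool.Agent.H532R3.ME
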