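import Pool.Agent.H532R3.ME.Medium

set_option autoImplicit false

open MeasureTheory Filter Topology
open scoped ContDiff Laplacian InnerProductSpace RealInnerProductSpace FourierTransform

namespace Pool.Agent.H532R3.ME

variable {d : ℕ} {m ρ : ℝ} {v u : E d → ℝ}

/-- `v` is radially symmetric -/
def Radial (v : E d → ℝ) : Prop := ∀ x y, ‖x‖ = ‖y‖ → v x = v y

lemma radial_cos (hv : Radial v) (k k' : E d) (h : ‖k‖ = ‖k'‖) :
    ∫ x, v x * Real.cos ⟪k, x⟫ = ∫ x, v x * Real.cos ⟪k', x⟫ := by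
  set R := Submodule.reflection (ℝ ∙ (k - k'))ᗮ with hR
  have h1 : R k = k' := Submodule.reflection_sub h
  have h2 := (R.measurePreserving).integral_comp R.toHomeomorph.measurableEmbedding
    (fun x => v x * Real.cos ⟪k', x⟫)
  rw [← h2]
  congr 1
  ext x
  have h3 : ⟪k', R x⟫ = ⟪k, x⟫ := by rw [← h1, LinearIsometryEquiv.inner_map_map]
  rw [h3, hv (R x) x (R.norm_map x)]

/-- the path on the sphere -/
theorem no_medium_of_radial (hd : 2 ≤ d) (hv : Admissible v) (hr : Radial v) (k₀ : E d)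
    (hneg : ∫ x, v x * Real.cos ⟪k₀, x⟫ < 0) (hm : 0 < m) :
    ∃ ρ₀ : ℝ, 0 < ρ₀ ∧ ∀ ρ, ρ₀ ≤ ρ → ¬ ∃ u, IsMediumSolution m ρ v u := by
  set e0 : E d := EuclideanSpace.single ⟨0, by omega⟩ 1 with he0
  set e1 : E d := EuclideanSpace.single ⟨1, by omega⟩ 1 with he1
  have n0 : ‖e0‖ = 1 := by simp [he0]
  have n1 : ‖e1‖ = 1 := by simp [he1]
  have h01 : ⟪e0, e1⟫ = 0 := by
    rw [he0, he1, EuclideanSpace.inner_single_left]
    simp
  set γ : ℝ → E d := fun t => ‖k₀‖ • (Real.cos (Real.pi * t) • e0 + Real.sin (Real.pi * t) • e1) with hγ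
  have hn : ∀ t, ‖γ t‖ = ‖k₀‖ := by
    intro t
    have h1 : ‖Real.cos (Real.pi * t) • e0 + Real.sin (Real.pi * t) • e1‖ ^ 2 = 1 := by
      rw [norm_add_sq_real, norm_smul, norm_smul, inner_smul_left, inner_smul_right, h01, n0, n1]
      simp
    have h2 : ‖Real.cos (Real.pi * t) • e0 + Real.sin (Real.pi * t) • e1‖ = 1 := by
      have h3 := norm_nonneg (Real.cos (Real.pi * t) • e0 + Real.sin (Real.pi * t) • e1)
      nlinarith
    rw [hγ]
    simp only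
    rw [norm_smul, h2, mul_one, norm_norm]
  apply no_medium_of_path (by omega) hv γ _ _ _ hm
  · rw [hγ]; fun_prop
  · rw [hγ]; simp
  · intro t _
    rw [radial_cos hr (γ t) k₀ (hn t)]
    exact hneg

/-- an example of a potential -/
noncomputable def vex (x : E d) : ℝ := Real.exp (-‖x‖ ^ 2) - Real.exp (-2 * ‖x‖ ^ 2)

lemma gauss_integrable (b : ℝ) (hb : 0 < b) : Integrable (fun x : E d => Real.exp (-b * ‖x‖ ^ 2)) := by
  have h := GaussianFourier.integrable_cexp_neg_mul_sq_norm_add (V := E d) (b := (b : ℂ)) (by simpa using hb) 0 0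
  have h2 := h.norm
  refine h2.congr (Eventually.of_forall fun x => ?_)
  simp only [zero_mul, add_zero]
  rw [Complex.norm_exp]
  congr 1
  have : (-(b : ℂ) * (‖x‖ : ℂ) ^ 2) = ((-b * ‖x‖ ^ 2 : ℝ) : ℂ) := by push_cast; ring
  rw [this, Complex.ofReal_re]

lemma gauss_cos (b : ℝ) (hb : 0 < b) (w : E d) :
    ∫ x : E d, Real.exp (-b * ‖x‖ ^ 2) * Real.cos ⟪(2 * Real.pi) • w, x⟫ =
      (Real.pi / b) ^ ((d : ℝ) / 2) * Real.exp (-Real.pi ^ 2 * ‖w‖ ^ 2 / b) := by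
  have h := fourier_gaussian_innerProductSpace (V := E d) (b := (b : ℂ)) (by simpa using hb) w
  have h1 : hat (fun x : E d => Real.exp (-b * ‖x‖ ^ 2)) ((2 * Real.pi) • w) =
      𝓕 (fun (x : E d) ↦ Complex.exp (-(b : ℂ) * ‖x‖ ^ 2)) w := by
    unfold hat
    have h2 : (2 * Real.pi)⁻¹ • (2 * Real.pi) • w = w := by
      rw [smul_smul, inv_mul_cancel₀ (by positivity), one_smul]
    have h5 : (fun x : E d => ((Real.exp (-b * ‖x‖ ^ 2) : ℝ) : ℂ)) =
        fun (x : E d) ↦ Complex.exp (-(b : ℂ) * ‖x‖ ^ 2) := by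
      funext x
      push_cast
      rfl
    rw [h2, h5]
  rw [← hat_re (gauss_integrable b hb), h1, h]
  have h3 : ((Real.pi : ℂ) / (b : ℂ)) ^ ((Module.finrank ℝ (E d) : ℂ) / 2) =
      (((Real.pi / b) ^ ((d : ℝ) / 2) : ℝ) : ℂ) := by
    rw [Complex.ofReal_cpow (by positivity)]
    simp
  have h4 : Complex.exp (-(Real.pi : ℂ) ^ 2 * (‖w‖ : ℂ) ^ 2 / (b : ℂ)) =
      ((Real.exp (-Real.pi ^ 2 * ‖w‖ ^ 2 / b) : ℝ) : ℂ) := by
    push_cast; rfl
  rw [h3, h4, ← Complex.ofReal_mul, Complex.ofReal_re]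

lemma vex_bounds (x : E d) : 0 ≤ vex x ∧ vex x ≤ 1 := by
  unfold vex
  have h0 := sq_nonneg ‖x‖
  have h1 : Real.exp (-2 * ‖x‖ ^ 2) ≤ Real.exp (-‖x‖ ^ 2) := Real.exp_le_exp.mpr (by nlinarith)
  have h2 : Real.exp (-‖x‖ ^ 2) ≤ 1 := Real.exp_le_one_iff.mpr (by linarith)
  have h3 := Real.exp_pos (-2 * ‖x‖ ^ 2)
  constructor <;> linarith

lemma vex_integrable : Integrable (vex : E d → ℝ) := by
  have h1 := gauss_integrable (d := d) 1 one_pos
  have h2 := gauss_integrable (d := d) 2 two_pos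
  refine (h1.sub h2).congr (Eventually.of_forall fun x => ?_)
  simp [vex]

lemma vex_continuous : Continuous (vex : E d → ℝ) := by
  unfold vex; fun_prop

lemma vex_radial : Radial (vex : E d → ℝ) := by
  intro x y h
  simp [vex, h]

lemma vex_admissible (hd : 1 ≤ d) : Admissible (vex : E d → ℝ) := by
  refine ⟨fun x => (vex_bounds x).1, ?_, vex_integrable, ⟨max ((d : ℝ) / 2) 1 + 1, by linarith, ?_⟩⟩
  · intro h
    have h1 : (vex : E d → ℝ) = 0 := (Continuous.ae_eq_iff_eq volume vex_continuous continuous_const).mp h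
    have h2 := congrFun h1 (EuclideanSpace.single ⟨0, by omega⟩ 1)
    simp only [vex, EuclideanSpace.norm_single, norm_one, one_pow, mul_one, Pi.zero_apply] at h2
    have h3 : Real.exp (-2) < Real.exp (-1) := Real.exp_lt_exp.mpr (by norm_num)
    linarith
  · have hp : 1 ≤ max ((d : ℝ) / 2) 1 + 1 := by linarith [le_max_right ((d : ℝ) / 2) 1]
    rw [← integrable_norm_rpow_iff vex_continuous.aestronglyMeasurable (by
      rw [Ne, ENNReal.ofReal_eq_zero, not_le]; linarith) ENNReal.ofReal_ne_top]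
    rw [ENNReal.toReal_ofReal (by linarith)]
    refine vex_integrable.mono (by
      exact (vex_continuous.norm.rpow_const (fun _ => Or.inr (by linarith))).aestronglyMeasurable) ?_
    filter_upwards with x
    obtain ⟨h0, h1⟩ := vex_bounds x
    rw [Real.norm_eq_abs, Real.norm_eq_abs, abs_of_nonneg h0, abs_of_nonneg (by positivity)]
    calc vex x ^ (max ((d : ℝ) / 2) 1 + 1) ≤ vex x ^ (1 : ℝ) :=
          Real.rpow_le_rpow_of_exponent_ge' h0 h1 zero_le_one hp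
      _ = vex x := Real.rpow_one _

lemma vex_neg (hd : 1 ≤ d) : ∃ k₀ : E d, ∫ x, vex x * Real.cos ⟪k₀, x⟫ < 0 := by
  -- choose c with 2 ^ (d/2) < exp (π² c² / 2)
  obtain ⟨c, hc⟩ : ∃ c : ℝ, (2 : ℝ) ^ ((d : ℝ) / 2) < Real.exp (Real.pi ^ 2 * c ^ 2 / 2) := by
    have h1 : Tendsto (fun c : ℝ => Real.exp (Real.pi ^ 2 * c ^ 2 / 2)) atTop atTop := by
      apply Real.tendsto_exp_atTop.comp
      apply Tendsto.atTop_div_const two_pos
      apply Tendsto.const_mul_atTop (by positivity)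
      exact tendsto_pow_atTop two_ne_zero
    exact (h1.eventually (eventually_gt_atTop _)).exists
  set w : E d := EuclideanSpace.single ⟨0, by omega⟩ c with hw
  have hwn : ‖w‖ ^ 2 = c ^ 2 := by simp [hw]
  refine ⟨(2 * Real.pi) • w, ?_⟩
  have h1 := gauss_cos (d := d) 1 one_pos w
  have h2 := gauss_cos (d := d) 2 two_pos w
  have i1 := integrable_mul_cos (gauss_integrable (d := d) 1 one_pos) ((2 * Real.pi) • w)
  have i2 := integrable_mul_cos (gauss_integrable (d := d) 2 two_pos) ((2 * Real.pi) • w)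
  have h3 : ∫ x : E d, vex x * Real.cos ⟪(2 * Real.pi) • w, x⟫ =
      (Real.pi / 1) ^ ((d : ℝ) / 2) * Real.exp (-Real.pi ^ 2 * ‖w‖ ^ 2 / 1) -
      (Real.pi / 2) ^ ((d : ℝ) / 2) * Real.exp (-Real.pi ^ 2 * ‖w‖ ^ 2 / 2) := by
    rw [← h1, ← h2, ← integral_sub i1 i2]
    congr 1
    ext x
    simp only [vex, neg_mul, one_mul]
    ring
  rw [h3, hwn, Real.div_rpow Real.pi_pos.le two_pos.le, div_one, div_one]
  have e1 : Real.exp (-Real.pi ^ 2 * c ^ 2 / 2) = Real.exp (-Real.pi ^ 2 * c ^ 2) * Real.exp (Real.pi ^ 2 * c ^ 2 / 2) := by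
    rw [← Real.exp_add]; congr 1; ring
  rw [e1]
  have p1 := Real.exp_pos (-Real.pi ^ 2 * c ^ 2)
  have p2 : 0 < Real.pi ^ ((d : ℝ) / 2) := Real.rpow_pos_of_pos Real.pi_pos _
  have p3 : 0 < (2 : ℝ) ^ ((d : ℝ) / 2) := Real.rpow_pos_of_pos two_pos _
  have h5 : Real.pi ^ ((d : ℝ) / 2) / 2 ^ ((d : ℝ) / 2) *
      (Real.exp (-Real.pi ^ 2 * c ^ 2) * Real.exp (Real.pi ^ 2 * c ^ 2 / 2)) >
      Real.pi ^ ((d : ℝ) / 2) / 2 ^ ((d : ℝ) / 2) * (Real.exp (-Real.pi ^ 2 * c ^ 2) * 2 ^ ((d : ℝ) / 2)) := by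
    gcongr
  have h6 : Real.pi ^ ((d : ℝ) / 2) / 2 ^ ((d : ℝ) / 2) * (Real.exp (-Real.pi ^ 2 * c ^ 2) * 2 ^ ((d : ℝ) / 2)) =
      Real.pi ^ ((d : ℝ) / 2) * Real.exp (-Real.pi ^ 2 * c ^ 2) := by field_simp
  linarith

end Pool.Agent.H532R3.ME
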