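import Mathlib

set_option autoImplicit false

open MeasureTheory Filter Topology
open scoped ContDiff Laplacian InnerProductSpace RealInnerProductSpace

namespace Pool.Agent.H532R3.ME

variable {V : Type*} [NormedAddCommGroup V] [InnerProductSpace ℝ V] [FiniteDimensional ℝ V]

lemma two_le_infty : ((2 : ℕ) : WithTop ℕ∞) ≤ ∞ :=
  WithTop.coe_le_coe.2 (le_top : (2 : ℕ∞) ≤ ⊤)

/-- the Laplacian is bounded by the norm of the second derivative -/
lemma abs_laplacian_le (f : V → ℝ) (x : V) (C : ℝ) (h : ‖iteratedFDeriv ℝ 2 f x‖ ≤ C) :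
    |(Δ f) x| ≤ Module.finrank ℝ V * C := by
  rw [InnerProductSpace.laplacian_eq_iteratedFDeriv_stdOrthonormalBasis]
  calc |∑ i, (iteratedFDeriv ℝ 2 f x) ![stdOrthonormalBasis ℝ V i, stdOrthonormalBasis ℝ V i]|
      ≤ ∑ i, |(iteratedFDeriv ℝ 2 f x) ![stdOrthonormalBasis ℝ V i, stdOrthonormalBasis ℝ V i]| :=
        Finset.abs_sum_le_sum_abs _ _
    _ ≤ ∑ _i : Fin (Module.finrank ℝ V), C := by
        apply Finset.sum_le_sum
        intro i _
        have h1 := (iteratedFDeriv ℝ 2 f x).le_opNorm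
          ![stdOrthonormalBasis ℝ V i, stdOrthonormalBasis ℝ V i]
        rw [Real.norm_eq_abs] at h1
        refine h1.trans ?_
        simp only [Fin.prod_univ_two, Matrix.cons_val_zero, Matrix.cons_val_one,
          OrthonormalBasis.norm_eq_one, mul_one]
        exact h
    _ = Module.finrank ℝ V * C := by simp

/-- second derivative of `g ∘ ℓ` for a linear functional -/
lemma iteratedFDeriv_comp_clm (g : ℝ → ℝ) (hg : ContDiff ℝ ∞ g) (ℓ : V →L[ℝ] ℝ) (n : ℕ) (x : V) :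
    ‖iteratedFDeriv ℝ n (g ∘ ℓ) x‖ ≤ |iteratedDeriv n g (ℓ x)| * ‖ℓ‖ ^ n := by
  rw [ℓ.iteratedFDeriv_comp_right hg x (mod_cast le_top)]
  refine (ContinuousMultilinearMap.norm_compContinuousLinearMap_le _ _).trans ?_
  simp only [Finset.prod_const, Finset.card_univ, Fintype.card_fin]
  rw [← Real.norm_eq_abs, norm_iteratedFDeriv_eq_norm_iteratedDeriv]

lemma laplacian_comp_clm (g : ℝ → ℝ) (hg : ContDiff ℝ ∞ g) (k : V) (x : V) :
    (Δ (fun y : V => g ⟪k, y⟫)) x = ‖k‖ ^ 2 * iteratedDeriv 2 g ⟪k, x⟫ := by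
  rw [InnerProductSpace.laplacian_eq_iteratedFDeriv_stdOrthonormalBasis]
  have h1 : (fun y : V => g ⟪k, y⟫) = g ∘ (innerSL ℝ k) := by ext; simp
  have h2 : ∀ i, (iteratedFDeriv ℝ 2 (fun y : V => g ⟪k, y⟫) x)
      ![stdOrthonormalBasis ℝ V i, stdOrthonormalBasis ℝ V i] =
      iteratedDeriv 2 g ⟪k, x⟫ * ⟪k, stdOrthonormalBasis ℝ V i⟫ ^ 2 := by
    intro i
    rw [h1, (innerSL ℝ k).iteratedFDeriv_comp_right hg x (i := 2) two_le_infty]
    rw [ContinuousMultilinearMap.compContinuousLinearMap_apply]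
    have h3 : (fun j : Fin 2 => (innerSL ℝ k) (![stdOrthonormalBasis ℝ V i, stdOrthonormalBasis ℝ V i] j))
        = fun _ => ⟪k, stdOrthonormalBasis ℝ V i⟫ • (1:ℝ) := by
      ext j; fin_cases j <;> simp
    rw [h3, ContinuousMultilinearMap.map_smul_univ]
    simp only [Finset.prod_const, Finset.card_univ, Fintype.card_fin, smul_eq_mul]
    rw [← iteratedDeriv_eq_iteratedFDeriv]
    simp [mul_comm]
  simp only [h2]
  rw [← Finset.mul_sum]
  have h4 : ∑ i, ⟪k, stdOrthonormalBasis ℝ V i⟫ ^ 2 = ‖k‖ ^ 2 := by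
    have := (stdOrthonormalBasis ℝ V).sum_sq_norm_inner_left k
    simpa using this
  rw [h4]; ring

/-- cut-offs -/
noncomputable def cut : ContDiffBump (0 : V) := ⟨1, 2, one_pos, one_lt_two⟩

/-- the rescaled cut-off -/
noncomputable def cutn (n : ℕ) (x : V) : ℝ := (cut : ContDiffBump (0 : V)) (((n : ℝ) + 1)⁻¹ • x)

lemma cutn_contDiff (n : ℕ) : ContDiff ℝ ∞ (cutn n : V → ℝ) := by
  unfold cutn
  exact (cut : ContDiffBump (0 : V)).contDiff.comp (contDiff_const_smul _)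

lemma cutn_hasCompactSupport (n : ℕ) : HasCompactSupport (cutn n : V → ℝ) := by
  unfold cutn
  have h := (cut : ContDiffBump (0 : V)).hasCompactSupport
  have hn : ((n : ℝ) + 1)⁻¹ ≠ 0 := by positivity
  exact h.comp_homeomorph (Homeomorph.smulOfNeZero _ hn)

lemma cutn_eq_one (x : V) : ∀ᶠ n : ℕ in atTop, (cutn n : V → ℝ) =ᶠ[𝓝 x] fun _ => 1 := by
  filter_upwards [eventually_ge_atTop ⌈‖x‖ + 1⌉₊] with n hn
  have h1 : ‖x‖ + 1 ≤ n := (Nat.le_ceil _).trans (by exact_mod_cast hn)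
  filter_upwards [Metric.ball_mem_nhds x one_pos] with y hy
  unfold cutn
  apply ContDiffBump.one_of_mem_closedBall
  rw [mem_closedBall_zero_iff, norm_smul, norm_inv]
  have h2 : ‖y‖ < ‖x‖ + 1 := by
    have := norm_sub_norm_le y x
    rw [mem_ball_iff_norm] at hy
    linarith
  have h3 : ‖(n : ℝ) + 1‖ = n + 1 := by rw [Real.norm_eq_abs, abs_of_pos (by positivity)]
  rw [h3, inv_mul_le_iff₀ (by positivity)]
  change ‖y‖ ≤ (n + 1) * 1
  linarith

lemma cutn_bound (j : ℕ) : ∃ C : ℝ, 0 ≤ C ∧ ∀ (n : ℕ) (x : V), ‖iteratedFDeriv ℝ j (cutn n : V → ℝ) x‖ ≤ C := by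
  have hc : ContDiff ℝ ∞ (cut : ContDiffBump (0 : V)) := (cut : ContDiffBump (0 : V)).contDiff
  have hcont : Continuous (iteratedFDeriv ℝ j (cut : ContDiffBump (0 : V))) :=
    hc.continuous_iteratedFDeriv (by exact_mod_cast le_top)
  have hcs : HasCompactSupport (iteratedFDeriv ℝ j (cut : ContDiffBump (0 : V))) :=
    (cut : ContDiffBump (0 : V)).hasCompactSupport.iteratedFDeriv j
  obtain ⟨C, hC⟩ := hcont.bounded_above_of_compact_support hcs
  refine ⟨max C 0, le_max_right _ _, fun n x => ?_⟩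
  have hn : (0 : ℝ) < (n : ℝ) + 1 := by positivity
  have h1 : (cutn n : V → ℝ) = (cut : ContDiffBump (0 : V)) ∘ (((n : ℝ) + 1)⁻¹ • ContinuousLinearMap.id ℝ V) := by
    ext x; simp [cutn]
  rw [h1, ContinuousLinearMap.iteratedFDeriv_comp_right _ hc x (by exact_mod_cast le_top)]
  refine (ContinuousMultilinearMap.norm_compContinuousLinearMap_le _ _).trans ?_
  simp only [Finset.prod_const, Finset.card_univ, Fintype.card_fin]
  have h2 : ‖((n : ℝ) + 1)⁻¹ • ContinuousLinearMap.id ℝ V‖ ≤ 1 := by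
    apply ContinuousLinearMap.opNorm_le_bound _ zero_le_one
    intro y
    have h4 : ((n : ℝ) + 1)⁻¹ ≤ 1 := inv_le_one_of_one_le₀ (by linarith [n.cast_nonneg (α := ℝ)])
    simp only [ContinuousLinearMap.smul_apply, ContinuousLinearMap.id_apply]
    rw [norm_smul, norm_inv, Real.norm_eq_abs, abs_of_pos hn]
    exact mul_le_mul_of_nonneg_right h4 (norm_nonneg _)
  calc ‖iteratedFDeriv ℝ j (cut : ContDiffBump (0 : V)) ((((n : ℝ) + 1)⁻¹ • ContinuousLinearMap.id ℝ V) x)‖
        * ‖((n : ℝ) + 1)⁻¹ • ContinuousLinearMap.id ℝ V‖ ^ j ≤ max C 0 * 1 := by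
        apply mul_le_mul ((hC _).trans (le_max_left _ _)) (pow_le_one₀ (norm_nonneg _) h2) (by positivity)
          (le_max_right _ _)
    _ = max C 0 := mul_one _

/-- From compactly supported smooth test functions to bounded smooth test functions. -/
lemma extend_test [MeasurableSpace V] [BorelSpace V] (u F : V → ℝ) (hu : Integrable u) (hF : Integrable F)
    (h : ∀ φ : V → ℝ, ContDiff ℝ ∞ φ → HasCompactSupport φ → ∫ x, u x * (Δ φ) x = ∫ x, F x * φ x)
    (φ : V → ℝ) (hφ : ContDiff ℝ ∞ φ) (C : ℝ)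
    (hC : ∀ j ≤ 2, ∀ x, ‖iteratedFDeriv ℝ j φ x‖ ≤ C) :
    ∫ x, u x * (Δ φ) x = ∫ x, F x * φ x := by
  have hC0 : 0 ≤ C := (norm_nonneg _).trans (hC 0 (by norm_num) 0)
  obtain ⟨C0, hC00, hC0'⟩ := cutn_bound (V := V) 0
  obtain ⟨C1, hC10, hC1'⟩ := cutn_bound (V := V) 1
  obtain ⟨C2, hC20, hC2'⟩ := cutn_bound (V := V) 2
  set ψ : ℕ → V → ℝ := fun n x => cutn n x * φ x with hψ
  have hψc : ∀ n, ContDiff ℝ ∞ (ψ n) := fun n => (cutn_contDiff n).mul hφ
  have hψs : ∀ n, HasCompactSupport (ψ n) := fun n => (cutn_hasCompactSupport n).mul_right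
  have hev : ∀ x, ∀ᶠ n : ℕ in atTop, ψ n =ᶠ[𝓝 x] φ := by
    intro x
    filter_upwards [cutn_eq_one x] with n hn
    filter_upwards [hn] with y hy
    simp [hψ, hy]
  have hφb : ∀ x, |φ x| ≤ C := by
    intro x
    have := hC 0 (by norm_num) x
    rwa [norm_iteratedFDeriv_zero] at this
  have hb0 : ∀ n x, |ψ n x| ≤ C0 * C := by
    intro n x
    have h1 := hC0' n x
    rw [norm_iteratedFDeriv_zero] at h1
    simp only [hψ, abs_mul]
    exact mul_le_mul h1 (hφb x) (abs_nonneg _) hC00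
  have hb2 : ∀ n x, |(Δ (ψ n)) x| ≤ Module.finrank ℝ V * (C0 * C + 2 * (C1 * C) + C2 * C) := by
    intro n x
    apply abs_laplacian_le
    have h1 := norm_iteratedFDeriv_mul_le (cutn_contDiff (V := V) n) hφ x (n := 2) two_le_infty
    refine h1.trans ?_
    rw [Finset.sum_range_succ, Finset.sum_range_succ, Finset.sum_range_succ]
    simp only [Finset.range_zero, Finset.sum_empty, zero_add, Nat.choose_zero_right, Nat.cast_one, one_mul,
      Nat.sub_zero, Nat.choose_self, Nat.sub_self]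
    have e1 : (Nat.choose 2 1 : ℝ) = 2 := by norm_num
    have t0 : ‖iteratedFDeriv ℝ 0 (cutn n : V → ℝ) x‖ * ‖iteratedFDeriv ℝ 2 φ x‖ ≤ C0 * C :=
      mul_le_mul (hC0' n x) (hC 2 le_rfl x) (norm_nonneg _) hC00
    have t1 : ‖iteratedFDeriv ℝ 1 (cutn n : V → ℝ) x‖ * ‖iteratedFDeriv ℝ (2 - 1) φ x‖ ≤ C1 * C :=
      mul_le_mul (hC1' n x) (hC (2 - 1) (by norm_num) x) (norm_nonneg _) hC10
    have t2 : ‖iteratedFDeriv ℝ 2 (cutn n : V → ℝ) x‖ * ‖iteratedFDeriv ℝ 0 φ x‖ ≤ C2 * C :=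
      mul_le_mul (hC2' n x) (hC 0 (by norm_num) x) (norm_nonneg _) hC20
    rw [e1]
    nlinarith
  have hlapcont : ∀ n, Continuous (Δ (ψ n)) := by
    intro n
    rw [InnerProductSpace.laplacian_eq_iteratedFDeriv_stdOrthonormalBasis]
    have := (hψc n).continuous_iteratedFDeriv (m := 2) two_le_infty
    fun_prop
  have L1 : Tendsto (fun n => ∫ x, u x * (Δ (ψ n)) x) atTop (𝓝 (∫ x, u x * (Δ φ) x)) := by
    apply tendsto_integral_of_dominated_convergence
      (fun x => ‖u x‖ * (Module.finrank ℝ V * (C0 * C + 2 * (C1 * C) + C2 * C)))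
    · intro n
      exact hu.aestronglyMeasurable.mul (hlapcont n).aestronglyMeasurable
    · exact hu.norm.mul_const _
    · intro n
      filter_upwards with x
      rw [norm_mul]
      exact mul_le_mul_of_nonneg_left (hb2 n x) (norm_nonneg _)
    · filter_upwards with x
      apply tendsto_const_nhds.congr'
      filter_upwards [hev x] with n hn
      rw [(InnerProductSpace.laplacian_congr_nhds hn).eq_of_nhds]
  have L2 : Tendsto (fun n => ∫ x, F x * ψ n x) atTop (𝓝 (∫ x, F x * φ x)) := by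
    apply tendsto_integral_of_dominated_convergence (fun x => ‖F x‖ * (C0 * C))
    · intro n
      exact hF.aestronglyMeasurable.mul (hψc n).continuous.aestronglyMeasurable
    · exact hF.norm.mul_const _
    · intro n
      filter_upwards with x
      rw [norm_mul]
      exact mul_le_mul_of_nonneg_left (hb0 n x) (norm_nonneg _)
    · filter_upwards with x
      apply tendsto_const_nhds.congr'
      filter_upwards [hev x] with n hn
      rw [hn.eq_of_nhds]
  have : (fun n => ∫ x, u x * (Δ (ψ n)) x) = fun n => ∫ x, F x * ψ n x := by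
    ext n; exact h _ (hψc n) (hψs n)
  rw [this] at L1
  exact tendsto_nhds_unique L1 L2

end Pool.Agent.H532R3.ME
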